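import Pool.Agent.MP_d5eec5_gt.H77.KSpec

/-! Reduction of an even cutting word to its padded reduced form. -/

set_option autoImplicit false

namespace Pool.Agent.MP_d5eec5_gt.H77

open Pool.Agent.MP_d5eec5_gt.H48 Relation

/-- The conclusion of the normal form statement. -/
def NormC (v : Wd) : Prop := ReflTransGen WR v [] ∨
  ∃ c w, Valid w ∧ ReflTransGen WR v (pad c w) ∧ I w ≤ I v ∧ w.count 1 ≤ v.count 1

theorem norm_back {v v' : Wd} (h : ReflTransGen WR v v') (hI : I v' ≤ I v)
    (hc : v'.count 1 ≤ v.count 1) (h' : NormC v') : NormC v := by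
  rcases h' with h' | ⟨c, w, hw, h1, h2, h3⟩
  · exact Or.inl (h.trans h')
  · exact Or.inr ⟨c, w, hw, h.trans h1, h2.trans hI, h3.trans hc⟩

theorem norm_hd2 (x y : Fin 3) (v : Wd) (hx : x ≠ 2) (hy : y ≠ 2) :
    ReflTransGen WR (x :: y :: v) v :=
  (ReflTransGen.single (WR.hd x y (y :: v) hx hy)).tail (WR.bt [] y v)

theorem norm_lt2 (x y : Fin 3) (v : Wd) (hx : x ≠ 0) (hy : y ≠ 0) :
    ReflTransGen WR (v ++ [y] ++ [x]) v := by
  have h1 := WR.lt x y (v ++ [y]) hx hy
  have h2 := WR.bt v y []
  simp only [List.append_nil] at h2
  refine (ReflTransGen.single h1).tail ?_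
  simpa using h2

theorem norm_split (v : Wd) (h : 2 ≤ v.length) : ∃ u y x, v = u ++ [y] ++ [x] := by
  rcases List.eq_nil_or_concat v with rfl | ⟨u, x, rfl⟩
  · simp at h
  rcases List.eq_nil_or_concat u with rfl | ⟨u', y, rfl⟩
  · simp at h
  exact ⟨u', y, x, by simp⟩

theorem norm_end (h2 : StmtR2) (v : Wd) (hev : Even v.length) (hch : v.IsChain (· ≠ ·))
    (hA : ∀ x y t, v = x :: y :: t → x = 2 ∨ y = 2)
    (hB : ∀ u y x, v = u ++ [y] ++ [x] → x = 0 ∨ y = 0) : NormC v := by
  match v, hev, hch, hA, hB with
  | [], _, _, _, _ => exact Or.inl ReflTransGen.refl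
  | [x], hev, _, _, _ => simp at hev
  | x :: y :: t, hev, hch, hA, hB =>
    have hevt : t.length % 2 = 0 := by
      rw [Nat.even_iff] at hev
      simp only [List.length_cons] at hev
      omega
    obtain ⟨u, y', x', huv⟩ := norm_split (x :: y :: t) (by simp)
    have hlast : (x :: y :: t).getLast? = some x' := by rw [huv]; simp
    have hlen : u.length % 2 = 0 := by
      have := congrArg List.length huv
      simp only [List.length_cons, List.length_append, List.length_nil] at this
      omega
    by_cases hx : x = 2
    · subst hx
      by_cases hx' : x' = 0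
      · subst hx'
        refine Or.inr ⟨false, 2 :: y :: t, ⟨rfl, hlast, hch⟩, ?_, le_rfl, le_rfl⟩
        have : pad false (2 :: y :: t) = 2 :: y :: t := by
          have : ¬ ((t.length + 1 + 1) % 2 = 1) := by omega
          simp [pad, this]
        rw [this]
      · have hy' : y' = 0 := (hB u y' x' huv).resolve_left hx'
        subst hy'
        rw [huv] at hch ⊢
        have hhd : (u ++ [0]).head? = some (2 : Fin 3) := by
          cases u with
          | nil => simp at huv
          | cons a u => simp at huv; simp [huv.1]
        refine Or.inr ⟨false, u ++ [0], ⟨hhd, by simp, hch.left_of_append⟩, ?_,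
          h2.2.1 x' _ hch hx', by simp⟩
        have : pad false (u ++ [0]) = u ++ [0] ++ [2] := by
          have : (u.length + 1) % 2 = 1 := by omega
          simp [pad, this]
        rw [this]
        exact ReflTransGen.single (WR.lt x' 2 _ hx' (by decide))
    · have hy : y = 2 := (hA x y t rfl).resolve_left hx
      subst hy
      have hI : I (2 :: t) ≤ I (x :: 2 :: t) := h2.1 x _ hch hx
      have hch' : ((2 : Fin 3) :: t).IsChain (· ≠ ·) := hch.tail
      have hs : WR (x :: 2 :: t) (0 :: 2 :: t) := WR.hd x 0 _ hx (by decide)
      by_cases hx' : x' = 0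
      · subst hx'
        refine Or.inr ⟨true, 2 :: t, ⟨rfl, by simpa using hlast, hch'⟩, ?_, hI,
          List.count_le_count_cons⟩
        have : pad true (2 :: t) = 0 :: 2 :: t := by
          have : ¬ ((1 + (t.length + 1)) % 2 = 1) := by omega
          simp [pad, this]
        rw [this]
        exact ReflTransGen.single hs
      · have hy' : y' = 0 := (hB u y' x' huv).resolve_left hx'
        subst hy'
        match u, huv, hlen with
        | [], huv, _ =>
          simp at huv
          obtain ⟨rfl, rfl, rfl⟩ := huv
          refine Or.inl ?_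
          have a1 : WR [0, 2] [1, 2] := WR.hd 0 1 [2] (by decide) (by decide)
          exact (ReflTransGen.single a1).trans (norm_lt2 2 1 [] (by decide) (by decide))
        | [a], huv, hlen => simp at hlen
        | a :: b :: u, huv, hlen =>
          simp only [List.cons_append, List.cons.injEq] at huv
          obtain ⟨rfl, rfl, rfl⟩ := huv
          have hch2 : ((2 : Fin 3) :: u ++ [0] ++ [x']).IsChain (· ≠ ·) := hch'
          refine Or.inr ⟨true, 2 :: u ++ [0], ⟨rfl, by simp [List.getLast?_cons],
            hch2.left_of_append⟩, ?_, (h2.2.1 x' _ hch2 hx').trans hI, ?_⟩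
          · have : pad true (2 :: u ++ [0]) = (0 :: 2 :: u ++ [0]) ++ [2] := by
              simp only [List.length_cons] at hlen
              have : (1 + (u.length + 1 + 1)) % 2 = 1 := by omega
              simp [pad, this]
            rw [this]
            exact (ReflTransGen.single hs).tail (WR.lt x' 2 (0 :: 2 :: u ++ [0]) hx' (by decide))
          · simp only [List.cons_append, List.count_cons, List.count_append]
            omega

theorem norm_aux (h1 : StmtR1) (h2 : StmtR2) (n : ℕ) :
    ∀ v : Wd, v.length = n → Even v.length → NormC v := by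
  induction n using Nat.strong_induction_on with
  | _ n ih =>
    intro v hn hev
    rw [Nat.even_iff] at hev
    by_cases hch : v.IsChain (· ≠ ·)
    · by_cases hA : ∀ x y t, v = x :: y :: t → x = 2 ∨ y = 2
      · by_cases hB : ∀ u y x, v = u ++ [y] ++ [x] → x = 0 ∨ y = 0
        · exact norm_end h2 v (Nat.even_iff.2 hev) hch hA hB
        · push Not at hB
          obtain ⟨u, y, x, rfl, hx, hy⟩ := hB
          simp only [List.length_append, List.length_cons, List.length_nil] at hn hev
          refine norm_back (norm_lt2 x y u hx hy)
            ((h2.2.1 y u hch.left_of_append hy).trans (h2.2.1 x _ hch hx)) ?_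
            (ih u.length (by omega) u rfl (Nat.even_iff.2 (by omega)))
          simp only [List.count_append]
          omega
      · push Not at hA
        obtain ⟨x, y, t, rfl, hx, hy⟩ := hA
        simp only [List.length_cons] at hn hev
        refine norm_back (norm_hd2 x y t hx hy)
          ((h2.1 y t hch.tail hy).trans (h2.1 x _ hch hx)) ?_
          (ih t.length (by omega) t rfl (Nat.even_iff.2 (by omega)))
        simp only [List.count_cons]
        omega
    · obtain ⟨a, x, b, rfl, hI⟩ := h1 v hch
      simp only [List.length_append, List.length_cons] at hn hev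
      refine norm_back (ReflTransGen.single (WR.bt a x b)) hI ?_
        (ih (a ++ b).length (by simp only [List.length_append]; omega) _ rfl
          (Nat.even_iff.2 (by simp only [List.length_append]; omega)))
      simp only [List.count_append, List.count_cons]
      omega

theorem norm_of (h1 : StmtR1) (h2 : StmtR2) : StmtNorm :=
  fun v hev => norm_aux h1 h2 _ v rfl hev

end Pool.Agent.MP_d5eec5_gt.H77
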